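import Pool.Agent.X55.Itm.Main
import Pool.Agent.X55.Itm.Small
import Pool.Agent.X55.Itm.FamT

/-!
# MP_d0d08e_co: classification of the graphs `H` such that clique-width is bounded on the class of
the `H`-induced-topological-minor-free graphs
-/

namespace Pool.Agent.Results.MP_d0d08e_co.Classification

open SimpleGraph Pool.Agent.H175R2 Pool.Agent.X55.Itm

/-- Sanity: every nonempty finite graph has a construction, so the minimum defining `cliqueWidth`
is attained. -/
theorem attained {V : Type} [Finite V] [Nonempty V] (G : SimpleGraph V) :
    CwLE G (cliqueWidth G) :=
  Nat.sInf_mem (s := {k | CwLE G k}) (exists_cwLE' V G)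

/-- Clique-width is bounded on the class of the `H`-induced-topological-minor-free graphs if and
only if `H` is an induced subgraph of the path `P₄`, of the paw or of the diamond. -/
theorem result {W : Type} [Finite W] (H : SimpleGraph W) :
    BddItm H ↔ H.IsIndContained P4 ∨ H.IsIndContained paw ∨ H.IsIndContained diamond := by
  constructor
  · intro h
    exact small_class (bdd_Q1 h) (bdd_Q2 h) (bdd_Q3 h) (bdd_Q4 h)
  · rintro (h | h | h)
    · exact bdd_P4.mono h
    · exact bdd_paw.mono h
    · exact bdd_diamond.mono h

end Pool.Agent.Results.MP_d0d08e_co.Classification
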